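import Mathlib
import Pool.Agent.Helper680.LoudC

set_option autoImplicit false

/-!
# Loud's centre on the line `F = 1 + D`, `-1 < D < 0`

The period function is strictly decreasing for `-1/2 < D < 0`, constant for `D = -1/2` and strictly
increasing for `-1 < D < -1/2`; in the first and last case its derivative has no zero.
The analytic inequality behind the theorem is helper284's (`Pool.Agent.Helper284.PF*`).
-/

namespace Pool.Agent.Results.MP_d6150d_an.LineMonotone

open Pool.Agent.Helper680.Loud Pool.Agent.Helper284.PFInv Pool.Agent.Helper284.PFMono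

/-- `τ` is the minimal period of the orbit through `(u, 0)` of
`x' = -y + x y`, `y' = x + D x² + F y²`. -/
def MinPeriod (D F u τ : ℝ) : Prop :=
  0 < τ ∧ ∃ γ : ℝ → ℝ × ℝ,
    (∀ t : ℝ, HasDerivAt γ (-(γ t).2 + (γ t).1 * (γ t).2,
      (γ t).1 + D * (γ t).1 ^ 2 + F * (γ t).2 ^ 2) t) ∧
    γ 0 = (u, 0) ∧ γ τ = (u, 0) ∧ ∀ t ∈ Set.Ioo (0:ℝ) τ, γ t ≠ (u, 0)

/-- The points `(s, 0)`, `s > 0`, of the period annulus of the origin. -/
def Annulus (D F : ℝ) : Set ℝ := {s | 0 < s ∧ ∀ u ∈ Set.Ioc (0:ℝ) s, ∃ τ : ℝ, MinPeriod D F u τ}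

theorem P_one (u : ℝ) : P 1 u + P 1 (-u) = 1 := by
  have hG : G 1 (-u) = -G 1 u := by
    have h2 : fx 1 (-(G 1 u)) = -u := by
      have h3 : fx 1 (-(G 1 u)) = -(fx 1 (G 1 u)) := by
        unfold fx
        simp
      rw [h3, fx_G one_pos]
    rw [← h2, G_fx one_pos]
  unfold P g b
  rw [hG]
  have h1 := Real.exp_pos (G 1 u)
  have h2 := Real.exp_pos (-G 1 u)
  simp only [one_mul, neg_neg]
  field_simp
  ring

theorem S_one (e : ℝ) : S 1 1 e = Real.pi := by
  have hPc := P_cont one_pos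
  have hsym := integral_sin_neg (H := fun y => P 1 (e * y)) 1
  have hadd : ∫ x in (0:ℝ)..(2 * Real.pi), (P 1 (e * Real.sin ((1:ℕ) * x)) +
      P 1 (e * -Real.sin ((1:ℕ) * x))) = 2 * Real.pi := by
    have : ∀ x : ℝ, P 1 (e * Real.sin ((1:ℕ) * x)) + P 1 (e * -Real.sin ((1:ℕ) * x)) = 1 := by
      intro x
      rw [mul_neg]
      exact P_one _
    simp_rw [this]
    simp
  rw [intervalIntegral.integral_add, hsym] at hadd
  · unfold S
    linarith
  · apply Continuous.intervalIntegrable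
    fun_prop
  · apply Continuous.intervalIntegrable
    fun_prop

theorem result (D : ℝ) (hD1 : -1 < D) (hD0 : D < 0) :
    Annulus D (1 + D) = Set.Ioo 0 1 ∧
    ∀ T : ℝ → ℝ, (∀ s ∈ Annulus D (1 + D), MinPeriod D (1 + D) s (T s)) →
      (-1/2 < D → StrictAntiOn T (Set.Ioo 0 1) ∧
        ∀ s ∈ Set.Ioo (0:ℝ) 1, ∃ d < 0, HasDerivAt T d s) ∧
      (D = -1/2 → ∀ s ∈ Set.Ioo (0:ℝ) 1, T s = 2 * Real.pi) ∧
      (D < -1/2 → StrictMonoOn T (Set.Ioo 0 1) ∧
        ∀ s ∈ Set.Ioo (0:ℝ) 1, ∃ d > 0, HasDerivAt T d s) := by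
  have hann : Annulus D (1 + D) = Set.Ioo 0 1 := ann_eq hD1 hD0
  refine ⟨hann, ?_⟩
  intro T hT
  rw [hann] at hT
  have hTT : ∀ s ∈ Set.Ioo (0:ℝ) 1, T s = TT D s := fun s hs =>
    period_formula' hD1 hD0 hs.1 hs.2 (hT s hs)
  have hder : ∀ s ∈ Set.Ioo (0:ℝ) 1, ∀ d, HasDerivAt (TT D) d s → HasDerivAt T d s := by
    intro s hs d hd
    refine hd.congr_of_eventuallyEq ?_
    filter_upwards [Ioo_mem_nhds hs.1 hs.2] with x hx using hTT x hx
  refine ⟨?_, ?_, ?_⟩
  · intro hD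
    refine ⟨?_, ?_⟩
    · have h : StrictAntiOn (TT D) (Set.Ioo 0 1) := by
        apply strictAntiOn_of_deriv_neg (convex_Ioo 0 1)
        · intro x hx
          obtain ⟨d, _, hd⟩ := TT_deriv_neg hD hD0 hx.1 hx.2
          exact hd.continuousAt.continuousWithinAt
        · intro x hx
          rw [interior_Ioo] at hx
          obtain ⟨d, hd0, hd⟩ := TT_deriv_neg hD hD0 hx.1 hx.2
          rw [hd.deriv]
          exact hd0
      intro a ha b hb hab
      rw [hTT a ha, hTT b hb]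
      exact h ha hb hab
    · intro s hs
      obtain ⟨d, hd0, hd⟩ := TT_deriv_neg hD hD0 hs.1 hs.2
      exact ⟨d, hd0, hder s hs d hd⟩
  · intro hD s hs
    rw [hTT s hs]
    have hmu : mu D = 1 := by
      unfold mu
      rw [hD]
      norm_num
    unfold TT
    rw [hmu, S_one]
    ring
  · intro hD
    refine ⟨?_, ?_⟩
    · have h : StrictMonoOn (TT D) (Set.Ioo 0 1) := by
        apply strictMonoOn_of_deriv_pos (convex_Ioo 0 1)
        · intro x hx
          obtain ⟨d, _, hd⟩ := TT_deriv_pos hD1 hD hx.1 hx.2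
          exact hd.continuousAt.continuousWithinAt
        · intro x hx
          rw [interior_Ioo] at hx
          obtain ⟨d, hd0, hd⟩ := TT_deriv_pos hD1 hD hx.1 hx.2
          rw [hd.deriv]
          exact hd0
      intro a ha b hb hab
      rw [hTT a ha, hTT b hb]
      exact h ha hb hab
    · intro s hs
      obtain ⟨d, hd0, hd⟩ := TT_deriv_pos hD1 hD hs.1 hs.2
      exact ⟨d, hd0, hder s hs d hd⟩

end Pool.Agent.Results.MP_d6150d_an.LineMonotone
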